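import Pool.Agent.Y933.KE.TW

/-!
# Normality from word tests (helper933)
-/

set_option autoImplicit false

namespace Pool.Agent.Y933.KE

open Finset Real MeasureTheory Filter Topology ProbabilityTheory
open Pool.Agent.Y933.KD

/-- comparison of the probabilities of events depending on one long word -/
lemma event_leW {b ℓ : ℕ} (hb : 1 ≤ b) (s : ℕ) (P : Measure ℝ) [IsProbabilityMeasure P] {Δ : ℝ}
    (h : ∀ c : ℕ, |P.real (WE b (fun _ : Fin 1 => s) (fun _ => ℓ) (fun _ => c)) -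
      Leb.real (WE b (fun _ : Fin 1 => s) (fun _ => ℓ) (fun _ => c))| ≤ Δ)
    (φ : ℕ → Prop) [DecidablePred φ] :
    P.real {x | φ (wd b ℓ s x)} ≤ Leb.real {x | φ (wd b ℓ s x)} + (b : ℝ) ^ ℓ * Δ := by
  have hone : ∀ c : ℕ, WE b (fun _ : Fin 1 => s) (fun _ => ℓ) (fun _ => c) =
      {x | wd b ℓ s x = c} := by
    intro c
    ext x
    exact ⟨fun hx => hx 0, fun hx _ => hx⟩
  have hmeas : ∀ c : ℕ, MeasurableSet {x | wd b ℓ s x = c} := fun c => by
    rw [← hone]; exact measurableSet_WE _ _ _ _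
  have hU : {x | φ (wd b ℓ s x)} = ⋃ c ∈ (range (b ^ ℓ)).filter φ, {x | wd b ℓ s x = c} := by
    ext x
    simp only [Set.mem_ofPred_eq, Set.mem_iUnion, mem_filter, mem_range]
    constructor
    · intro hx
      exact ⟨wd b ℓ s x, ⟨wd_lt hb _ _ _, hx⟩, rfl⟩
    · rintro ⟨c, ⟨_, hc⟩, hx⟩
      rw [hx]; exact hc
  have hsum : ∀ Q : Measure ℝ, IsProbabilityMeasure Q → Q.real {x | φ (wd b ℓ s x)} =
      ∑ c ∈ (range (b ^ ℓ)).filter φ, Q.real {x | wd b ℓ s x = c} := by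
    intro Q _
    rw [hU, measureReal_biUnion_finset]
    · intro c _ c' _ hcc
      rw [Function.onFun, Set.disjoint_left]
      intro x hx hx'
      exact hcc (hx.symm.trans hx')
    · intro c _
      exact hmeas c
  rw [hsum P inferInstance, hsum Leb inferInstance]
  have hΔ : 0 ≤ Δ := (abs_nonneg _).trans (h 0)
  calc ∑ c ∈ (range (b ^ ℓ)).filter φ, P.real {x | wd b ℓ s x = c}
      ≤ ∑ c ∈ (range (b ^ ℓ)).filter φ, (Leb.real {x | wd b ℓ s x = c} + Δ) := by
        refine sum_le_sum fun c _ => ?_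
        have h1 := h c
        rw [hone] at h1
        have := (abs_le.1 h1).2
        linarith
    _ = ∑ c ∈ (range (b ^ ℓ)).filter φ, Leb.real {x | wd b ℓ s x = c} +
        (((range (b ^ ℓ)).filter φ).card : ℝ) * Δ := by
        rw [sum_add_distrib, sum_const, nsmul_eq_mul]
    _ ≤ _ := by
        gcongr
        have := card_filter_le (range (b ^ ℓ)) φ
        rw [card_range] at this
        exact_mod_cast this

/-- **normality with power saving exceptional sets** from word tests in one base -/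
theorem normal_TW {b w : ℕ} (hb : 2 ≤ b) (hw : 1 ≤ w) {A ε : ℝ} (hε : 0 < ε)
    {S : ℕ → Set (Measure ℝ)} (hS : ∀ M, 1 ≤ M → ∀ P ∈ S M, IsProbabilityMeasure P)
    (hT : TW b 1 (A + 1) S) :
    ∃ c : ℝ, 0 < c ∧ ∃ M0 : ℕ, ∀ M : ℕ, M0 ≤ M → ∃ U : Set ℝ, MeasurableSet U ∧
      (∀ P ∈ S M, P.real U ≤ (M : ℝ) ^ (-c)) ∧
      ∀ x, x ∉ U → ∀ k j s N : ℕ, 1 ≤ k → k ≤ w → j < b ^ k →
        (s : ℝ) + N ≤ A * log M → |WS b k (ci b k j) s N x| ≤ ε * log M := by
  classical
  obtain ⟨δ, hδ, C, hC⟩ := hT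
  have hb1 : 1 ≤ b := by omega
  have hbR : (1 : ℝ) ≤ b := by exact_mod_cast hb1
  -- parameters
  set A1 : ℝ := max A 1 with hA1
  have hA1' : 1 ≤ A1 := le_max_right _ _
  have hA1A : A ≤ A1 := le_max_left _ _
  set ε' : ℝ := ε / (2 * A1) with hε'
  have hε'0 : 0 < ε' := by positivity
  set lB : ℝ := log (b : ℝ) with hlB
  have hlB0 : 0 < lB := Real.log_pos (by exact_mod_cast hb)
  set κ : ℝ := min (min (ε / 2) 1) (δ / (2 * lB)) with hκ
  have hκ0 : 0 < κ := lt_min (lt_min (by positivity) one_pos) (by positivity)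
  have hκε : κ ≤ ε / 2 := (min_le_left _ _).trans (min_le_left _ _)
  have hκ1 : κ ≤ 1 := (min_le_left _ _).trans (min_le_right _ _)
  have hκδ : κ * lB ≤ δ / 2 := by
    have : κ ≤ δ / (2 * lB) := min_le_right _ _
    calc κ * lB ≤ δ / (2 * lB) * lB := by gcongr
      _ = δ / 2 := by field_simp
  have hwR : (1 : ℝ) ≤ w := by exact_mod_cast hw
  set c0 : ℝ := 3 / 8 * (ε' ^ 2 * κ / w ^ 2) with hc0
  have hc00 : 0 < c0 := by positivity
  set C1 : ℝ := 2 * exp (2 * w ^ 2 + ε' ^ 2 / (2 * w)) with hC1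
  have hC10 : 0 < C1 := by positivity
  set c2 : ℝ := min c0 (δ / 2) with hc2
  have hc20 : 0 < c2 := lt_min hc00 (by positivity)
  set nU : ℝ := (w + 1) * (b : ℝ) ^ w with hnU
  set C3 : ℝ := (nU * (A1 + 1)) * (C1 + |C|) * (1 + 1 / (c2 / 4)) with hC3
  have hC30 : 0 ≤ C3 := by positivity
  -- large `M`
  have hlog : Tendsto (fun M : ℕ => log (M : ℝ)) atTop atTop :=
    Real.tendsto_log_atTop.comp tendsto_natCast_atTop_atTop
  obtain ⟨M1, hM1⟩ := eventually_atTop.1 ((hlog.eventually_ge_atTop (((w : ℝ) + 1) / κ)).and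
    (VdC.ev_le C3 (c2 / 4) (by positivity)))
  refine ⟨c2 / 2, by positivity, max M1 2, fun M hM => ?_⟩
  obtain ⟨hM2, hM3⟩ := hM1 M (le_of_max_le_left hM)
  have hM4 : 2 ≤ M := le_of_max_le_right hM
  have hMR : (2 : ℝ) ≤ M := by exact_mod_cast hM4
  have hMp : (0 : ℝ) < M := by linarith
  have hM1' : (1 : ℝ) ≤ M := by linarith
  set t : ℝ := log M with ht
  have ht0 : 0 < t := Real.log_pos (by linarith)
  have hκt : (w : ℝ) + 1 ≤ κ * t := by
    rw [div_le_iff₀ hκ0] at hM2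
    linarith
  set ℓ : ℕ := ⌊κ * t⌋₊ with hℓ
  have hℓ1 : (ℓ : ℝ) ≤ κ * t := Nat.floor_le (by positivity)
  have hℓ2 : κ * t < ℓ + 1 := Nat.lt_floor_add_one _
  have hwℓ : w ≤ ℓ := by
    have : (w : ℝ) < ℓ + 1 := by linarith
    have : w < ℓ + 1 := by exact_mod_cast this
    omega
  -- the index set and the exceptional set
  set I : Finset ((ℕ × ℕ) × ℕ) := ((Finset.Icc 1 w ×ˢ range (b ^ w)) ×ˢ
    range (⌊A1 * t⌋₊ + 1)).filter (fun q => q.1.2 < b ^ q.1.1 ∧ (q.2 : ℝ) ≤ A * t) with hI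
  set E : (ℕ × ℕ) × ℕ → Set ℝ := fun q => Dv b q.1.1 (ci b q.1.1 q.1.2) q.2
    (ℓ + 1 - q.1.1) (ε' * ((ℓ + 1 - q.1.1 : ℕ) : ℝ)) with hE
  refine ⟨⋃ q ∈ I, E q, ?_, ?_, ?_⟩
  · exact MeasurableSet.biUnion (Finset.countable_toSet I) fun q _ => measurableSet_Dv _ _ _ _ _ _
  · intro P hP
    have := hS M (by omega) P hP
    have hone : ∀ q ∈ I, P.real (E q) ≤ (C1 + |C|) * (M : ℝ) ^ (-c2) := by
      intro q hq
      rw [hI, mem_filter, mem_product, mem_product] at hq
      obtain ⟨⟨⟨hk, _⟩, _⟩, hjb, hsA⟩ := hq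
      obtain ⟨⟨k, j⟩, s⟩ := q
      simp only at hk hjb hsA ⊢
      rw [mem_Icc] at hk
      have hkR : (1 : ℝ) ≤ k := by exact_mod_cast hk.1
      have hkwR : (k : ℝ) ≤ w := by exact_mod_cast hk.2
      set L : ℕ := ℓ + 1 - k with hL
      have hL1 : 1 ≤ L := by omega
      have hLk : L + k ≤ ℓ + 1 := by omega
      have hLR : (L : ℝ) = ℓ + 1 - k := by
        rw [hL, Nat.cast_sub (by omega)]; push_cast; ring
      have hLκ : (L : ℝ) ≤ κ * t := by rw [hLR]; linarith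
      have hLlow : κ * t - w ≤ L := by rw [hLR]; linarith
      obtain ⟨φ, hφ⟩ := WS_inside (b := b) hb1 (k := k) (L := L) (ℓ := ℓ) hLk (ci b k j)
      have hEq : E ((k, j), s) = {x | ε' * (L : ℝ) < |φ (wd b ℓ s x)|} := by
        rw [hE]
        ext x
        unfold Dv
        simp only [Set.mem_ofPred_eq]
        rw [hφ]
      have h1 := event_leW (b := b) (ℓ := ℓ) hb1 s P (Δ := C * (M : ℝ) ^ (-δ))
        (fun c => hC M (by omega) P hP (fun _ => s) (fun _ => ℓ) (fun _ => c) (fun _ => by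
          have h0 : κ * t ≤ 1 * t := by gcongr
          linarith)) (fun c => ε' * (L : ℝ) < |φ c|)
      rw [← hEq] at h1
      have h2 := dev_Leb (b := b) (k := k) (c := j) hb1 hk.1 hjb s L hL1 hε'0
      have hEq2 : E ((k, j), s) = Dv b k (ci b k j) s L (ε' * L) := rfl
      rw [← hEq2] at h2
      -- the Lebesgue part
      have h3 : ε' / k * √(L : ℝ) - ε' ^ 2 * L / (2 * k ^ 2) ≤
          -(c0 * t) + (2 * w ^ 2 + ε' ^ 2 / (2 * w)) := by
        have h4 : ε' / k * √(L : ℝ) ≤ ε' * √(κ * t) := by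
          have h5 : ε' / k ≤ ε' := div_le_self hε'0.le hkR
          have h6 : √(L : ℝ) ≤ √(κ * t) := Real.sqrt_le_sqrt hLκ
          exact mul_le_mul h5 h6 (Real.sqrt_nonneg _) hε'0.le
        have h5 := sqrt_le_lin (z := κ * t) (η := ε' / (8 * w ^ 2)) (by positivity) (by positivity)
        have h6 : ε' * √(κ * t) ≤ ε' ^ 2 * (κ * t) / (8 * w ^ 2) + 2 * w ^ 2 := by
          calc ε' * √(κ * t) ≤ ε' * (ε' / (8 * w ^ 2) * (κ * t) + 1 / (4 * (ε' / (8 * w ^ 2)))) := by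
                gcongr
            _ = ε' ^ 2 * (κ * t) / (8 * w ^ 2) + 2 * w ^ 2 := by
                field_simp
                ring
        have h7 : ε' ^ 2 * (κ * t - w) / (2 * w ^ 2) ≤ ε' ^ 2 * L / (2 * k ^ 2) := by
          have h8 : 0 ≤ κ * t - w := by linarith
          apply div_le_div₀ (by positivity)
          · gcongr
          · positivity
          · gcongr
        have h9 : ε' ^ 2 * (κ * t - w) / (2 * w ^ 2) =
            ε' ^ 2 * (κ * t) / (2 * w ^ 2) - ε' ^ 2 / (2 * w) := by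
          field_simp
        have h10 : c0 * t = 3 / 8 * (ε' ^ 2 * (κ * t) / w ^ 2) := by rw [hc0]; ring
        have h11 : ε' ^ 2 * (κ * t) / (8 * w ^ 2) - ε' ^ 2 * (κ * t) / (2 * w ^ 2) =
            -(3 / 8 * (ε' ^ 2 * (κ * t) / w ^ 2)) := by
          field_simp
          ring
        rw [h10]
        linarith
      have h4 : Leb.real (E ((k, j), s)) ≤ C1 * (M : ℝ) ^ (-c0) := by
        refine h2.trans ?_
        rw [hC1, Real.rpow_def_of_pos hMp, mul_assoc, ← Real.exp_add, ← ht]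
        refine mul_le_mul_of_nonneg_left (Real.exp_le_exp.2 ?_) (by norm_num)
        refine h3.trans (le_of_eq ?_)
        ring
      have h5 : (b : ℝ) ^ ℓ * (C * (M : ℝ) ^ (-δ)) ≤ |C| * (M : ℝ) ^ (-(δ / 2)) := by
        have h6 : (b : ℝ) ^ ℓ ≤ (M : ℝ) ^ (δ / 2) := by
          rw [Real.rpow_def_of_pos hMp, ← Real.exp_log (by positivity : (0 : ℝ) < (b : ℝ) ^ ℓ),
            Real.log_pow, ← ht]
          apply Real.exp_le_exp.2
          calc (ℓ : ℝ) * log b ≤ (κ * t) * lB := by gcongr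
            _ = t * (κ * lB) := by ring
            _ ≤ t * (δ / 2) := by gcongr
        calc (b : ℝ) ^ ℓ * (C * (M : ℝ) ^ (-δ)) ≤ (b : ℝ) ^ ℓ * (|C| * (M : ℝ) ^ (-δ)) := by
              gcongr
              exact le_abs_self C
          _ ≤ (M : ℝ) ^ (δ / 2) * (|C| * (M : ℝ) ^ (-δ)) := by gcongr
          _ = |C| * (M : ℝ) ^ (-(δ / 2)) := by
              rw [mul_left_comm, ← Real.rpow_add hMp]
              congr 2
              ring
      have h6 : (M : ℝ) ^ (-c0) ≤ (M : ℝ) ^ (-c2) := by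
        apply Real.rpow_le_rpow_of_exponent_le hM1'
        have := min_le_left c0 (δ / 2)
        linarith
      have h7 : (M : ℝ) ^ (-(δ / 2)) ≤ (M : ℝ) ^ (-c2) := by
        apply Real.rpow_le_rpow_of_exponent_le hM1'
        have := min_le_right c0 (δ / 2)
        linarith
      calc P.real (E ((k, j), s)) ≤ Leb.real (E ((k, j), s)) +
            (b : ℝ) ^ ℓ * (C * (M : ℝ) ^ (-δ)) := h1
        _ ≤ C1 * (M : ℝ) ^ (-c2) + |C| * (M : ℝ) ^ (-c2) := by
            refine add_le_add (h4.trans ?_) (h5.trans ?_)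
            · gcongr
            · gcongr
        _ = (C1 + |C|) * (M : ℝ) ^ (-c2) := by ring
    have hcard : (I.card : ℝ) ≤ nU * ((A1 + 1) * (1 + t)) := by
      have h1 : I.card ≤ ((Finset.Icc 1 w).card * (b ^ w)) *
          (⌊A1 * t⌋₊ + 1) := by
        refine (card_filter_le _ _).trans (le_of_eq ?_)
        rw [card_product, card_product, card_range, card_range]
      have h3 : ((Finset.Icc 1 w).card : ℝ) ≤ w + 1 := by
        rw [Nat.card_Icc]
        have : w + 1 - 1 ≤ w + 1 := Nat.sub_le _ _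
        exact_mod_cast this
      have h4 : (⌊A1 * t⌋₊ : ℝ) ≤ A1 * t := Nat.floor_le (by positivity)
      calc (I.card : ℝ) ≤ ((((Finset.Icc 1 w).card * (b ^ w)) *
            (⌊A1 * t⌋₊ + 1) : ℕ) : ℝ) := by exact_mod_cast h1
        _ = (((Finset.Icc 1 w).card : ℝ) * (b : ℝ) ^ w) *
            ((⌊A1 * t⌋₊ : ℝ) + 1) := by push_cast; ring
        _ ≤ ((w + 1) * (b : ℝ) ^ w) * (A1 * t + 1) := by gcongr
        _ ≤ nU * ((A1 + 1) * (1 + t)) := by
            rw [hnU]
            gcongr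
            nlinarith
    have h1 : P.real (⋃ q ∈ I, E q) ≤ ∑ q ∈ I, P.real (E q) := measureReal_biUnion_finset_le _ _
    have h2 : 1 + t ≤ (1 + 1 / (c2 / 4)) * (M : ℝ) ^ (c2 / 4) :=
      VdC.one_add_log_le hM1' (by positivity)
    calc P.real (⋃ q ∈ I, E q) ≤ ∑ q ∈ I, P.real (E q) := h1
      _ ≤ ∑ _q ∈ I, (C1 + |C|) * (M : ℝ) ^ (-c2) := sum_le_sum hone
      _ = I.card * ((C1 + |C|) * (M : ℝ) ^ (-c2)) := by rw [sum_const, nsmul_eq_mul]
      _ ≤ (nU * ((A1 + 1) * ((1 + 1 / (c2 / 4)) * (M : ℝ) ^ (c2 / 4)))) *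
          ((C1 + |C|) * (M : ℝ) ^ (-c2)) := by
          refine mul_le_mul_of_nonneg_right (hcard.trans ?_) (by positivity)
          gcongr
      _ = C3 * ((M : ℝ) ^ (c2 / 4) * (M : ℝ) ^ (-c2)) := by rw [hC3]; ring
      _ ≤ (M : ℝ) ^ (c2 / 4) * ((M : ℝ) ^ (c2 / 4) * (M : ℝ) ^ (-c2)) := by gcongr
      _ = (M : ℝ) ^ (-(c2 / 2)) := by
          rw [← Real.rpow_add hMp, ← Real.rpow_add hMp]
          congr 1
          ring
  · intro x hx k j s N hk hkw hj hsN
    have hkR : (1 : ℝ) ≤ k := by exact_mod_cast hk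
    set L : ℕ := ℓ + 1 - k with hL
    have hL1 : 1 ≤ L := by omega
    have hLR : (L : ℝ) = ℓ + 1 - k := by
      rw [hL, Nat.cast_sub (by omega)]; push_cast; ring
    have hLR0 : (0 : ℝ) < L := by exact_mod_cast hL1
    have hLκ : (L : ℝ) ≤ κ * t := by rw [hLR]; linarith
    have hdet := det_block (b := b) (k := k) (G := ci b k j) (L := L) (τ := ε' * L)
      (T := A * t) (x := x) (ci_le hb1 k j) hL1 (by positivity) (by
      intro s' hs' hmem
      apply hx
      rw [Set.mem_iUnion₂]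
      refine ⟨((k, j), s'), ?_, hmem⟩
      rw [hI, mem_filter, mem_product, mem_product]
      refine ⟨⟨⟨mem_Icc.2 ⟨hk, hkw⟩, ?_⟩, ?_⟩, hj, hs'⟩
      · rw [mem_range]
        calc j < b ^ k := hj
          _ ≤ b ^ w := Nat.pow_le_pow_right (by omega) hkw
      · rw [mem_range, Nat.lt_succ_iff]
        apply Nat.le_floor
        refine hs'.trans ?_
        gcongr) s N hsN
    refine hdet.trans ?_
    have h1 : (N : ℝ) / L * (ε' * L) = N * ε' := by field_simp
    have hN : (N : ℝ) ≤ A1 * t := by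
      have h2 : (0 : ℝ) ≤ s := Nat.cast_nonneg s
      have h3 : A * t ≤ A1 * t := by gcongr
      linarith
    rw [h1]
    calc (N : ℝ) * ε' + L ≤ A1 * t * ε' + κ * t := by gcongr
      _ = ε / 2 * t + κ * t := by rw [hε']; field_simp
      _ ≤ ε / 2 * t + ε / 2 * t := by gcongr
      _ = ε * t := by ring

end Pool.Agent.Y933.KE
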