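import Pool.Agent.Y933.KE.Smear
import Pool.Agent.Y933.KE.CltW
import Pool.Agent.Y933.KE.NormW

/-!
# The digits of random integers (helper933)
-/

set_option autoImplicit false

namespace Pool.Agent.Y933.KE

open Finset Real MeasureTheory Filter Topology ProbabilityTheory
open Pool.Agent.Y933.KD

variable {ι : Type*}

lemma wd_floor {b : ℕ} (hb : 1 ≤ b) {n w J : ℕ} (h : n + w ≤ J) {x : ℝ} (hx : 0 ≤ x) :
    wd b w n x = ⌊(b : ℝ) ^ J * x⌋₊ / b ^ (J - (n + w)) % b ^ w := by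
  have hb' : (0 : ℝ) < b := by exact_mod_cast hb
  have h0 : 0 ≤ (b : ℝ) ^ J * x := by positivity
  have h1 : x = ((⌊(b : ℝ) ^ J * x⌋₊ : ℝ) + Int.fract ((b : ℝ) ^ J * x)) / (b : ℝ) ^ J := by
    rw [natCast_floor_eq_intCast_floor h0, Int.floor_add_fract]
    field_simp
  have h2 := wd_smear hb h ⌊(b : ℝ) ^ J * x⌋₊ (θ := Int.fract ((b : ℝ) ^ J * x))
    ⟨Int.fract_nonneg _, Int.fract_lt_one _⟩
  rw [← h1] at h2
  exact h2

open Classical in
/-- probabilities of word events for random real numbers -/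
lemma Leb_WE {q k J : ℕ} (hq : 1 ≤ q) {n w c : Fin k → ℕ} (h : ∀ r, n r + w r ≤ J) :
    Leb.real (WE q n w c) = ((range (q ^ J)).filter
      (fun t => ∀ r, t / q ^ (J - (n r + w r)) % q ^ (w r) = c r)).card / (q : ℝ) ^ J := by
  have hq' : (0 : ℝ) < q := by exact_mod_cast hq
  set F : ℕ → ℝ := fun t => if ∀ r, t / q ^ (J - (n r + w r)) % q ^ (w r) = c r then 1 else 0
    with hF
  have h1 := int_word hq J 0 F
  have h2 : Leb.real (WE q n w c) = ∫ x, F (wd q J 0 x) ∂Leb := by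
    rw [← integral_indicator_one (measurableSet_WE q n w c)]
    refine int_Leb_congr' fun x hx => ?_
    have hfl : wd q J 0 x = ⌊(q : ℝ) ^ J * x⌋₊ := by
      rw [wd_floor hq (n := 0) (w := J) (J := J) (by omega) hx.1]
      simp only [zero_add, Nat.sub_self, pow_zero, Nat.div_one]
      apply Nat.mod_eq_of_lt
      rw [Nat.floor_lt (by have := hx.1; positivity)]
      push_cast
      have := hx.2
      have h4 : (0 : ℝ) < (q : ℝ) ^ J := by positivity
      nlinarith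
    rw [hfl]
    have hw : ∀ r, wd q (w r) (n r) x = ⌊(q : ℝ) ^ J * x⌋₊ / q ^ (J - (n r + w r)) % q ^ (w r) :=
      fun r => wd_floor hq (h r) hx.1
    by_cases hx2 : x ∈ WE q n w c
    · rw [Set.indicator_of_mem hx2, Pi.one_apply]
      simp only [hF]
      rw [if_pos]
      intro r
      rw [← hw r]
      exact hx2 r
    · rw [Set.indicator_of_notMem hx2]
      simp only [hF]
      rw [if_neg]
      intro h3
      apply hx2
      intro r
      rw [hw r]
      exact h3 r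
  rw [h2, h1]
  congr 1
  rw [card_filter]
  push_cast
  rfl

open Classical in
/-- tests for the digits of random integers -/
theorem tests_smear {q k : ℕ} (hq : 1 ≤ q) {A : ℝ} {S : ℕ → Set (Measure ℝ)} (hT : TW q k A S) :
    ∃ δ : ℝ, 0 < δ ∧ ∃ C : ℝ, ∀ M : ℕ, 1 ≤ M → ∀ (s : Finset ι) (X : ι → ℕ) (J : ℕ),
      smear s X q J ∈ S M → (J : ℝ) ≤ A * log M → ∀ i w c : Fin k → ℕ, (∀ r, i r + w r ≤ J) →
      |((s.filter (fun m => ∀ r, X m / q ^ (i r) % q ^ (w r) = c r)).card : ℝ) / s.card -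
        ((range (q ^ J)).filter (fun t => ∀ r, t / q ^ (i r) % q ^ (w r) = c r)).card /
          (q : ℝ) ^ J| ≤ C * (M : ℝ) ^ (-δ) := by
  obtain ⟨δ, hδ, C, hC⟩ := hT
  refine ⟨δ, hδ, C, fun M hM s X J hS hJ i w c hi => ?_⟩
  have hsub : ∀ r, J - (i r + w r) + w r ≤ J := fun r => by have := hi r; omega
  have hsub2 : ∀ r, J - (J - (i r + w r) + w r) = i r := fun r => by have := hi r; omega
  have key := hC M hM _ hS (fun r => J - (i r + w r)) w c (fun r => by
    have h1 : ((J - (i r + w r) : ℕ) : ℝ) + w r ≤ J := by exact_mod_cast hsub r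
    linarith)
  rw [Leb_WE hq hsub, real_smear X q J (measurableSet_WE _ _ _ _)
    (fun m => ∀ r, X m / q ^ (i r) % q ^ (w r) = c r) ?_] at key
  · simp only [hsub2] at key
    exact key
  · intro m _ θ hθ
    constructor
    · intro h r
      have h1 := h r
      rw [wd_smear hq (hsub r) (X m) hθ, hsub2] at h1
      exact h1
    · intro h r
      rw [wd_smear hq (hsub r) (X m) hθ, hsub2]
      exact h r

/-- sums over the words of an integer -/
lemma sum_places {q : ℕ} (hq : 1 ≤ q) (F : ℕ → ℝ) {w s s' L J : ℕ} (h : s' + s + L + w = J + 1)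
    (X : ℕ) {θ : ℝ} (hθ : θ ∈ Set.Ico (0 : ℝ) 1) :
    ∑ i ∈ range L, F (wd q w (s' + i) (((X : ℝ) + θ) / (q : ℝ) ^ J)) =
      ∑ i ∈ range L, F (X / q ^ (s + i) % q ^ w) := by
  rw [← Finset.sum_range_reflect (fun i => F (X / q ^ (s + i) % q ^ w))]
  refine sum_congr rfl fun i hi => ?_
  rw [mem_range] at hi
  rw [wd_smear hq (by omega) X hθ]
  congr 4
  omega

lemma count_places {q : ℕ} (hq : 1 ≤ q) (j : ℕ) {k s s' L J : ℕ} (h : s' + s + L + k = J + 1)
    (X : ℕ) {θ : ℝ} (hθ : θ ∈ Set.Ico (0 : ℝ) 1) :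
    ((((range L).filter (fun i => wd q k (s' + i) (((X : ℝ) + θ) / (q : ℝ) ^ J) = j)).card : ℕ) : ℝ) =
      ((range L).filter (fun i => X / q ^ (s + i) % q ^ k = j)).card := by
  have h1 := sum_places hq (fun c => if c = j then (1 : ℝ) else 0) h X hθ
  rw [card_filter, card_filter]
  push_cast
  exact h1

open Classical in
/-- normality for the digits of random integers -/
theorem normal_smear {q w : ℕ} (hq : 2 ≤ q) {A ε : ℝ} (hε : 0 < ε) {S : ℕ → Set (Measure ℝ)}
    (hS : ∀ M, 1 ≤ M → ∀ P ∈ S M, IsProbabilityMeasure P) (hT : TW q 1 (A + 1) S) :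
    ∃ c : ℝ, 0 < c ∧ ∃ M0 : ℕ, ∀ M : ℕ, M0 ≤ M → ∀ (s : Finset ι) (X : ι → ℕ) (J : ℕ),
      smear s X q J ∈ S M → (J : ℝ) ≤ A * log M →
      ((s.filter (fun m => ¬ ∀ k j i₀ L : ℕ, 1 ≤ k → k ≤ w → j < q ^ k → i₀ + L + k ≤ J + 1 →
        |(((range L).filter (fun i => X m / q ^ (i₀ + i) % q ^ k = j)).card : ℝ) -
          L / (q : ℝ) ^ k| ≤ ε * log M)).card : ℝ) ≤ s.card * (M : ℝ) ^ (-c) := by
  obtain ⟨c, hc, M0, h⟩ := normal_TW (b := q) (w := max w 1) hq (le_max_right _ _) (A := A) hε hS hT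
  refine ⟨c, hc, max M0 1, fun M hM s X J hSM hJ => ?_⟩
  obtain ⟨U, hU, hP, hx⟩ := h M (le_of_max_le_left hM)
  have hM1 : 1 ≤ M := le_of_max_le_right hM
  have hlog0 : 0 ≤ log (M : ℝ) := Real.log_nonneg (by exact_mod_cast hM1)
  rcases s.eq_empty_or_nonempty with rfl | hne
  · simp
  have hT0 : (0 : ℝ) < s.card := by exact_mod_cast hne.card_pos
  have hprob := smear_prob hne X q J
  -- the exceptional set
  set E : Set ℝ := {x | ¬ ∀ k j i₀ L : ℕ, 1 ≤ k → k ≤ w → j < q ^ k → i₀ + L + k ≤ J + 1 → 1 ≤ L →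
    |WS q k (ci q k j) (J + 1 - (i₀ + L + k)) L x| ≤ ε * log M} with hE
  have hEm : MeasurableSet E := by
    have hEe : E = ⋃ k : ℕ, ⋃ j : ℕ, ⋃ i₀ : ℕ, ⋃ L : ℕ,
        {x | ¬ (1 ≤ k → k ≤ w → j < q ^ k → i₀ + L + k ≤ J + 1 → 1 ≤ L →
          |WS q k (ci q k j) (J + 1 - (i₀ + L + k)) L x| ≤ ε * log M)} := by
      ext x
      simp only [hE, Set.mem_iUnion, Set.mem_ofPred_eq]
      push Not
      rfl
    rw [hEe]
    refine MeasurableSet.iUnion fun k => MeasurableSet.iUnion fun j => MeasurableSet.iUnion fun i₀ =>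
      MeasurableSet.iUnion fun L => ?_
    by_cases hcond : 1 ≤ k ∧ k ≤ w ∧ j < q ^ k ∧ i₀ + L + k ≤ J + 1 ∧ 1 ≤ L
    · obtain ⟨h1, h2, h3, h4, h5⟩ := hcond
      have : {x : ℝ | ¬ (1 ≤ k → k ≤ w → j < q ^ k → i₀ + L + k ≤ J + 1 → 1 ≤ L →
          |WS q k (ci q k j) (J + 1 - (i₀ + L + k)) L x| ≤ ε * log M)} =
          {x | ε * log M < |WS q k (ci q k j) (J + 1 - (i₀ + L + k)) L x|} := by
        ext x
        simp only [Set.mem_ofPred_eq]
        constructor
        · intro h6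
          by_contra h7
          push Not at h7
          exact h6 fun _ _ _ _ _ => h7
        · intro h6 h7
          exact absurd (h7 h1 h2 h3 h4 h5) (not_le.2 h6)
      rw [this]
      exact measurableSet_lt measurable_const (measurable_WS _ _ _ _ _).abs
    · have : {x : ℝ | ¬ (1 ≤ k → k ≤ w → j < q ^ k → i₀ + L + k ≤ J + 1 → 1 ≤ L →
          |WS q k (ci q k j) (J + 1 - (i₀ + L + k)) L x| ≤ ε * log M)} = ∅ := by
        rw [Set.eq_empty_iff_forall_notMem]
        intro x hx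
        exact hx fun h1 h2 h3 h4 h5 => absurd ⟨h1, h2, h3, h4, h5⟩ hcond
      rw [this]
      exact MeasurableSet.empty
  have hEU : E ⊆ U := by
    intro x hxE
    by_contra hxU
    apply hxE
    intro k j i₀ L hk hkw hj hJk hL
    refine hx x hxU k j _ L hk (hkw.trans (le_max_left _ _)) hj ?_
    have h1 : (J + 1 - (i₀ + L + k)) + L ≤ J := by omega
    have h2 : (((J + 1 - (i₀ + L + k) : ℕ) : ℝ)) + L ≤ J := by exact_mod_cast h1
    linarith
  have hPE : (smear s X q J).real E ≤ (M : ℝ) ^ (-c) :=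
    (measureReal_mono hEU).trans (hP _ hSM)
  rw [real_smear X q J hEm (fun m => ¬ ∀ k j i₀ L : ℕ, 1 ≤ k → k ≤ w → j < q ^ k →
    i₀ + L + k ≤ J + 1 → |(((range L).filter (fun i => X m / q ^ (i₀ + i) % q ^ k = j)).card : ℝ) -
          L / (q : ℝ) ^ k| ≤ ε * log M) ?_, div_le_iff₀ hT0] at hPE
  · exact hPE.trans (le_of_eq (mul_comm _ _))
  · intro m _ θ hθ
    rw [hE, Set.mem_ofPred_eq, not_iff_not]
    constructor
    · intro h1 k j i₀ L hk hkw hj hJk
      rcases Nat.eq_zero_or_pos L with rfl | hL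
      · simp only [range_zero, filter_empty, card_empty, Nat.cast_zero, zero_div, sub_zero, abs_zero]
        positivity
      · have h2 := h1 k j i₀ L hk hkw hj hJk hL
        rw [WS_ci (by omega), count_places (by omega) j (s := i₀) (by omega) (X m) hθ] at h2
        exact h2
    · intro h1 k j i₀ L hk hkw hj hJk hL
      rw [WS_ci (by omega), count_places (by omega) j (s := i₀) (by omega) (X m) hθ]
      exact h1 k j i₀ L hk hkw hj hJk

/-- the laws of a sequence of families of random integers -/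
noncomputable def Ph (q : ℕ) (s : ℕ → Finset ι) (X : ℕ → ι → ℕ) (J : ℕ → ℕ) (M : ℕ) : Measure ℝ :=
  open Classical in if (s M).Nonempty then smear (s M) (X M) q (J M) else Leb

instance (q : ℕ) (s : ℕ → Finset ι) (X : ℕ → ι → ℕ) (J : ℕ → ℕ) (M : ℕ) :
    IsProbabilityMeasure (Ph q s X J M) := by
  unfold Ph
  split_ifs with h
  · exact smear_prob h _ _ _
  · infer_instance

/-- the central limit theorem for the digits of random integers -/
theorem clt_smear {q w : ℕ} (hq : 1 ≤ q) (hw : 1 ≤ w) (F : ℕ → ℝ)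
    (hσ : 0 < cv q w F 0 + 2 * ∑ h ∈ Finset.Ico 1 w, cv q w F h) {A : ℝ}
    {S : ℕ → Set (Measure ℝ)} (hS : ∀ M, 1 ≤ M → ∀ P ∈ S M, IsProbabilityMeasure P)
    (hT : ∀ k, TW q k (A + 1) S) (s : ℕ → Finset ι) (X : ℕ → ι → ℕ) (i₀ L : ℕ → ℕ)
    (hL : Tendsto L atTop atTop)
    (hP : ∀ᶠ M : ℕ in atTop, (s M).Nonempty ∧ smear (s M) (X M) q (i₀ M + L M + w - 1) ∈ S M ∧
      ((i₀ M + L M + w - 1 : ℕ) : ℝ) ≤ A * log M) (a : ℝ) :
    Tendsto (fun M : ℕ => (((s M).filter (fun m =>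
      ∑ i ∈ range (L M), F (X M m / q ^ (i₀ M + i) % q ^ w) - L M * mn q w F ≤
        a * √((cv q w F 0 + 2 * ∑ h ∈ Finset.Ico 1 w, cv q w F h) * L M))).card : ℝ) /
        (s M).card) atTop
      (𝓝 ((gaussianReal 0 1).real (Set.Iic a))) := by
  classical
  have h1 := clt_TW (G := cen q w F) hq hw (cen_le q w F) (cen_sum hq F)
    (by rw [sigma2_cen hq]; exact hσ) hS hT (Ph q s X (fun M => i₀ M + L M + w - 1)) (by
      filter_upwards [hP] with M hM
      unfold Ph
      rw [if_pos hM.1]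
      exact hM.2.1) (fun _ => 0) L hL (by
      filter_upwards [hP] with M hM
      refine le_trans ?_ hM.2.2
      exact_mod_cast (by omega : 0 + L M ≤ i₀ M + L M + w - 1)) a
  refine h1.congr' ?_
  filter_upwards [hP] with M hM
  have hmeas : MeasurableSet {z | WS q w (cen q w F) 0 (L M) z ≤
      a * √(sigma2 q w (cen q w F) * L M)} :=
    measurableSet_le (measurable_WS _ _ _ _ _) measurable_const
  unfold Ph
  rw [if_pos hM.1, real_smear (X M) q _ hmeas (fun m =>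
    ∑ i ∈ range (L M), F (X M m / q ^ (i₀ M + i) % q ^ w) - L M * mn q w F ≤
        a * √((cv q w F 0 + 2 * ∑ h ∈ Finset.Ico 1 w, cv q w F h) * L M))]
  intro m _ θ hθ
  rw [Set.mem_ofPred_eq, WS_cen hq, sigma2_cen hq,
    sum_places hq F (s := i₀ M) (J := i₀ M + L M + w - 1) (by omega) (X M m) hθ]

end Pool.Agent.Y933.KE
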