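import Pool.Agent.Y933.KE.Pows
import Pool.Agent.Y933.KE.SmearRes

/-!
# The digits of the multiples of a power (helper933)
-/

set_option autoImplicit false

namespace Pool.Agent.Y933.KE

open Finset Real MeasureTheory Filter Topology ProbabilityTheory
open Pool.Agent.Y933.KD

/-- the number of digits `b` as a number of places -/
lemma count_digits_eq {q : ℕ} (hq : 2 ≤ q) (b : ℕ) : ∀ X : ℕ, (Nat.digits q X).count b =
    ((range (Nat.digits q X).length).filter (fun i => X / q ^ i % q = b)).card := by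
  intro X
  induction X using Nat.strong_induction_on with
  | _ X ih =>
    rcases Nat.eq_zero_or_pos X with rfl | hX
    · simp
    · have h1 := ih (X / q) (Nat.div_lt_self hX (by omega))
      rw [Nat.digits_def' (by omega) hX, List.count_cons, List.length_cons, h1, card_filter,
        card_filter, Finset.sum_range_succ']
      congr 1
      · refine sum_congr rfl fun i _ => ?_
        rw [pow_succ', Nat.div_div_eq_div_mul]
      · simp

/-- the frequency of a digit in the multiples of a power, from the frequency among the low digits -/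
lemma freq_of_low {p q : ℕ} (hp : 2 ≤ p) (hq : 2 ≤ q) {ε : ℝ} (hε : 0 < ε) :
    ∃ n₀ : ℕ, ∀ n : ℕ, n₀ ≤ n → ∀ m b : ℕ, 1 ≤ m → (m : ℝ) ≤ (p : ℝ) ^ (ε * n) →
      |(((range (Nat.log q (p ^ n))).filter (fun i => m * p ^ n / q ^ i % q = b)).card : ℝ) -
        (Nat.log q (p ^ n) : ℝ) / q| ≤ 1 / (4 * log q) * (ε * n * log p) →
      |((Nat.digits q (m * p ^ n)).count b : ℝ) / (n * Real.logb q p) - 1 / q| ≤ 2 * ε := by
  have hqR : (2 : ℝ) ≤ q := by exact_mod_cast hq
  have hq0 : (0 : ℝ) < q := by linarith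
  have hpR : (2 : ℝ) ≤ p := by exact_mod_cast hp
  have hp0 : (0 : ℝ) < p := by linarith
  have hlq : 0 < log (q : ℝ) := Real.log_pos (by linarith)
  have hlp : 0 < log (p : ℝ) := Real.log_pos (by linarith)
  set lam : ℝ := Real.logb q p with hlam
  have hlam' : lam = log p / log q := rfl
  have hlam0 : 0 < lam := by rw [hlam']; positivity
  refine ⟨⌈4 / (ε * lam)⌉₊ + 1, fun n hn m b hm hmM hlow => ?_⟩
  have hn1 : 1 ≤ n := by omega
  have hnR : (0 : ℝ) < n := by exact_mod_cast hn1
  set D : ℝ := n * lam with hD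
  have hD0 : 0 < D := by positivity
  have hD4 : 4 ≤ ε * D := by
    have h1 : 4 / (ε * lam) ≤ n := (Nat.le_ceil _).trans (by exact_mod_cast (by omega :
      ⌈4 / (ε * lam)⌉₊ ≤ n))
    rw [div_le_iff₀ (by positivity)] at h1
    rw [hD]
    linarith
  set J : ℕ := Nat.log q (p ^ n) with hJ
  set X : ℕ := m * p ^ n with hX
  have hpn : p ^ n ≠ 0 := by positivity
  have hX0 : X ≠ 0 := by positivity
  have hJ1 : q ^ J ≤ p ^ n := Nat.pow_log_le_self q hpn
  have hJ2 : p ^ n < q ^ (J + 1) := Nat.lt_pow_succ_log_self (by omega) _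
  have hJR1 : (J : ℝ) ≤ D := by
    have h1 : (q : ℝ) ^ J ≤ (p : ℝ) ^ n := by exact_mod_cast hJ1
    have h2 := Real.log_le_log (by positivity) h1
    rw [Real.log_pow, Real.log_pow] at h2
    rw [hD, hlam', mul_div_assoc', le_div_iff₀ hlq]
    exact h2
  have hJR2 : D ≤ J + 1 := by
    have h1 : (p : ℝ) ^ n ≤ (q : ℝ) ^ (J + 1) := by exact_mod_cast hJ2.le
    have h2 := Real.log_le_log (by positivity) h1
    rw [Real.log_pow, Real.log_pow] at h2
    push_cast at h2
    rw [hD, hlam', mul_div_assoc', div_le_iff₀ hlq]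
    exact h2
  set ℓ : ℕ := (Nat.digits q X).length with hℓ
  have hlen : ℓ = Nat.log q X + 1 := Nat.digits_len q X (by omega) hX0
  have hℓ1 : J ≤ ℓ := by
    rw [hlen]
    have h1 : J ≤ Nat.log q X := by
      apply Nat.log_mono_right
      rw [hX]
      exact Nat.le_mul_of_pos_left _ hm
    omega
  have hℓ2 : (ℓ : ℝ) ≤ D + ε * D + 1 := by
    have h1 : q ^ (ℓ - 1) ≤ X := by
      rw [hlen, Nat.add_sub_cancel]
      exact Nat.pow_log_le_self q hX0
    have h2 : (q : ℝ) ^ (ℓ - 1) ≤ (p : ℝ) ^ (ε * n) * (p : ℝ) ^ n := by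
      calc (q : ℝ) ^ (ℓ - 1) ≤ (X : ℝ) := by exact_mod_cast h1
        _ = m * (p : ℝ) ^ n := by rw [hX]; push_cast; ring
        _ ≤ _ := by gcongr
    have h3 := Real.log_le_log (by positivity) h2
    rw [Real.log_mul (by positivity) (by positivity), Real.log_pow, Real.log_pow,
      Real.log_rpow hp0] at h3
    have h4 : ((ℓ - 1 : ℕ) : ℝ) = ℓ - 1 := by
      rw [Nat.cast_sub (by omega)]
      push_cast
      ring
    rw [h4] at h3
    have h5 : (ℓ : ℝ) - 1 ≤ (ε * n * log p + n * log p) / log q := by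
      rw [le_div_iff₀ hlq]
      exact h3
    have h6 : (ε * n * log p + n * log p) / log q = D + ε * D := by
      rw [hD, hlam']
      ring
    linarith
  -- the count
  set c : ℕ := ((range J).filter (fun i => X / q ^ i % q = b)).card with hc
  have hcount : (Nat.digits q X).count b = ((range ℓ).filter (fun i => X / q ^ i % q = b)).card :=
    count_digits_eq hq b X
  have h1 : c ≤ (Nat.digits q X).count b := by
    rw [hcount]
    exact card_le_card (filter_subset_filter _ (range_subset_range.2 hℓ1))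
  have h2 : (Nat.digits q X).count b ≤ c + (ℓ - J) := by
    rw [hcount, hc]
    have h3 : (range ℓ).filter (fun i => X / q ^ i % q = b) ⊆
        (range J).filter (fun i => X / q ^ i % q = b) ∪ Finset.Ico J ℓ := by
      intro i hi
      rw [mem_filter, mem_range] at hi
      rw [mem_union, mem_filter, mem_range, mem_Ico]
      rcases lt_or_ge i J with h4 | h4
      · exact Or.inl ⟨h4, hi.2⟩
      · exact Or.inr ⟨h4, hi.1⟩
    refine (card_le_card h3).trans ((card_union_le _ _).trans ?_)
    rw [Nat.card_Ico]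
  have h1R : (c : ℝ) ≤ (Nat.digits q X).count b := by exact_mod_cast h1
  have h2R : ((Nat.digits q X).count b : ℝ) ≤ c + (ℓ - J) := by
    have : (((Nat.digits q X).count b : ℕ) : ℝ) ≤ ((c + (ℓ - J) : ℕ) : ℝ) := by exact_mod_cast h2
    rw [Nat.cast_add, Nat.cast_sub hℓ1] at this
    exact this
  have h3 : 1 / (4 * log q) * (ε * n * log p) = ε * D / 4 := by
    rw [hD, hlam']
    field_simp
  rw [h3, abs_le] at hlow
  have h4 : (J : ℝ) / q ≤ D / q := by gcongr
  have h5 : D / q - 1 / q ≤ (J : ℝ) / q := by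
    rw [← sub_div]
    gcongr
    linarith
  have h6 : 1 / (q : ℝ) ≤ 1 := by
    rw [div_le_one hq0]
    linarith
  have h7 : |((Nat.digits q X).count b : ℝ) - D / q| ≤ 2 * ε * D := by
    rw [abs_le]
    constructor
    · linarith [hlow.1]
    · linarith [hlow.2]
  have h8 : ((Nat.digits q X).count b : ℝ) / D - 1 / q =
      (((Nat.digits q X).count b : ℝ) - D / q) / D := by
    field_simp
  rw [h8, abs_div, abs_of_pos hD0, div_le_iff₀ hD0]
  exact h7

end Pool.Agent.Y933.KE
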