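import Pool.Agent.Y933.KE.TW

/-!
# Random integers as random real numbers (helper933)
-/

set_option autoImplicit false

namespace Pool.Agent.Y933.KE

open Finset Real MeasureTheory Filter Topology ProbabilityTheory
open scoped ENNReal
open Pool.Agent.Y933.KD

variable {ι : Type*}

/-- the law of `(X + θ) / b ^ J`, where `X` is a random element of a finite family of natural
numbers and `θ` a random real number in `[0, 1)` -/
noncomputable def smear (s : Finset ι) (X : ι → ℕ) (b J : ℕ) : Measure ℝ :=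
  (s.card : ℝ≥0∞)⁻¹ • ∑ m ∈ s, Leb.map (fun θ : ℝ => ((X m : ℝ) + θ) / (b : ℝ) ^ J)

lemma meas_map (a c : ℝ) : Measurable (fun θ : ℝ => (a + θ) / c) :=
  (measurable_const_add a).div_const c

lemma smear_prob {s : Finset ι} (hs : s.Nonempty) (X : ι → ℕ) (b J : ℕ) :
    IsProbabilityMeasure (smear s X b J) := by
  refine ⟨?_⟩
  unfold smear
  rw [Measure.smul_apply, Measure.finsetSum_apply]
  have h1 : ∀ m ∈ s, (Leb.map (fun θ : ℝ => ((X m : ℝ) + θ) / (b : ℝ) ^ J)) Set.univ = 1 := by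
    intro m _
    have := Measure.isProbabilityMeasure_map (μ := Leb)
      (meas_map (X m : ℝ) ((b : ℝ) ^ J)).aemeasurable
    exact measure_univ
  rw [sum_congr rfl h1]
  simp only [sum_const, smul_eq_mul, nsmul_eq_mul, mul_one]
  refine ENNReal.inv_mul_cancel ?_ (ENNReal.natCast_ne_top _)
  exact_mod_cast (Finset.card_pos.2 hs).ne'

lemma hat_smear (s : Finset ι) (X : ι → ℕ) (b J : ℕ) (l : ℤ) :
    hat (smear s X b J) l = (1 / s.card) * ((∑ m ∈ s, e ((l : ℝ) / (b : ℝ) ^ J * X m)) *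
      ∫ θ, e ((l : ℝ) / (b : ℝ) ^ J * θ) ∂Leb) := by
  unfold hat smear
  rw [integral_smul_measure, integral_finsetSum_measure]
  · have h1 : ∀ m ∈ s, ∫ x, e (l * x) ∂(Leb.map (fun θ : ℝ => ((X m : ℝ) + θ) / (b : ℝ) ^ J)) =
        e ((l : ℝ) / (b : ℝ) ^ J * X m) * ∫ θ, e ((l : ℝ) / (b : ℝ) ^ J * θ) ∂Leb := by
      intro m _
      have hc : Continuous (fun x : ℝ => e ((l : ℝ) * x)) := continuous_e.comp (by fun_prop)
      rw [integral_map (meas_map _ _).aemeasurable hc.aestronglyMeasurable, ← integral_const_mul]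
      congr 1
      funext θ
      rw [← e_add]
      congr 1
      ring
    rw [sum_congr rfl h1, ← sum_mul]
    simp only [ENNReal.toReal_inv, ENNReal.toReal_natCast]
    rw [Complex.real_smul]
    push_cast
    rw [one_div]
  · intro m _
    have := Measure.isProbabilityMeasure_map (μ := Leb)
      (meas_map (X m : ℝ) ((b : ℝ) ^ J)).aemeasurable
    exact integrable_e _ _

lemma int_e_le (a : ℝ) : ‖∫ θ, e (a * θ) ∂Leb‖ ≤ 1 := by
  have h1 := norm_integral_le_of_norm_le_const (μ := Leb) (C := 1)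
    (Filter.Eventually.of_forall fun θ : ℝ => (norm_e (a * θ)).le)
  simpa using h1

lemma hat_smear_le {s : Finset ι} (X : ι → ℕ) (b J : ℕ) (l : ℤ) :
    ‖hat (smear s X b J) l‖ ≤ 1 / s.card * ‖∑ m ∈ s, e ((l : ℝ) / (b : ℝ) ^ J * X m)‖ := by
  rw [hat_smear, norm_mul, norm_mul, norm_div, norm_one, Complex.norm_natCast]
  have h1 := int_e_le ((l : ℝ) / (b : ℝ) ^ J)
  have h2 : ‖∑ m ∈ s, e ((l : ℝ) / (b : ℝ) ^ J * X m)‖ * ‖∫ θ, e ((l : ℝ) / (b : ℝ) ^ J * θ) ∂Leb‖ ≤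
      ‖∑ m ∈ s, e ((l : ℝ) / (b : ℝ) ^ J * X m)‖ * 1 := by gcongr
  rw [mul_one] at h2
  gcongr

lemma hat_smear_zero {s : Finset ι} (X : ι → ℕ) {b J : ℕ} (hb : 1 ≤ b) {l : ℤ} (hl : l ≠ 0)
    (hd : (b : ℤ) ^ J ∣ l) : hat (smear s X b J) l = 0 := by
  obtain ⟨t, rfl⟩ := hd
  have hb' : (b : ℝ) ^ J ≠ 0 := by positivity
  have ht : t ≠ 0 := by
    rintro rfl
    exact hl (mul_zero _)
  have h1 : (((b : ℤ) ^ J * t : ℤ) : ℝ) / (b : ℝ) ^ J = t := by
    push_cast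
    field_simp
  rw [hat_smear, h1]
  have h2 : ∫ θ, e ((t : ℝ) * θ) ∂Leb = 0 := hat_Leb t ht
  rw [h2, mul_zero, mul_zero]

/-- the digits of `(X + θ) / b ^ J` are those of `X` -/
lemma wd_smear {b : ℕ} (hb : 1 ≤ b) {n w J : ℕ} (h : n + w ≤ J) (X : ℕ) {θ : ℝ}
    (hθ : θ ∈ Set.Ico (0 : ℝ) 1) :
    wd b w n (((X : ℝ) + θ) / (b : ℝ) ^ J) = X / b ^ (J - (n + w)) % b ^ w := by
  have hb' : (0 : ℝ) < b := by exact_mod_cast hb
  have hx : 0 ≤ ((X : ℝ) + θ) / (b : ℝ) ^ J := div_nonneg (add_nonneg (Nat.cast_nonneg _) hθ.1)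
    (by positivity)
  rw [wd_eq_mod hb w n hx]
  congr 1
  have h1 : (b : ℝ) ^ J = (b : ℝ) ^ (n + w) * (b : ℝ) ^ (J - (n + w)) := by
    rw [← pow_add]
    congr 1
    omega
  have h2 : (b : ℝ) ^ (n + w) * (((X : ℝ) + θ) / (b : ℝ) ^ J) =
      ((X : ℝ) + θ) / ((b ^ (J - (n + w)) : ℕ) : ℝ) := by
    rw [h1]
    push_cast
    field_simp
  rw [h2, Nat.floor_div_natCast]
  congr 1
  rw [Nat.floor_eq_iff (add_nonneg (Nat.cast_nonneg _) hθ.1)]
  constructor <;> linarith [hθ.1, hθ.2]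

/-- probabilities of events that do not depend on `θ` are proportions -/
lemma real_smear {s : Finset ι} (X : ι → ℕ) (b J : ℕ) {E : Set ℝ} (hE : MeasurableSet E)
    (p : ι → Prop) [DecidablePred p] (hp : ∀ m ∈ s, ∀ θ ∈ Set.Ico (0 : ℝ) 1,
      (((X m : ℝ) + θ) / (b : ℝ) ^ J ∈ E ↔ p m)) :
    (smear s X b J).real E = (s.filter p).card / s.card := by
  unfold smear Measure.real
  rw [Measure.smul_apply, Measure.finsetSum_apply]
  have h1 : ∀ m ∈ s, (Leb.map (fun θ : ℝ => ((X m : ℝ) + θ) / (b : ℝ) ^ J)) E =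
      if p m then 1 else 0 := by
    intro m hm
    rw [Measure.map_apply (meas_map _ _) hE]
    unfold Leb
    rw [Measure.restrict_apply ((meas_map _ _) hE)]
    split_ifs with h
    · have h2 : (fun θ : ℝ => ((X m : ℝ) + θ) / (b : ℝ) ^ J) ⁻¹' E ∩ Set.Ico 0 1 =
          Set.Ico (0 : ℝ) 1 := by
        ext θ
        constructor
        · exact fun h => h.2
        · exact fun hθ => ⟨(hp m hm θ hθ).2 h, hθ⟩
      rw [h2]
      simp
    · have h2 : (fun θ : ℝ => ((X m : ℝ) + θ) / (b : ℝ) ^ J) ⁻¹' E ∩ Set.Ico 0 1 = ∅ := by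
        rw [Set.eq_empty_iff_forall_notMem]
        rintro θ ⟨h3, hθ⟩
        exact h ((hp m hm θ hθ).1 h3)
      rw [h2, measure_empty]
  have h2 : ∑ m ∈ s, (if p m then 1 else 0 : ℝ≥0∞) = (s.filter p).card := by
    rw [card_filter]
    push_cast
    rfl
  rw [sum_congr rfl h1, h2]
  simp only [smul_eq_mul, ENNReal.toReal_mul, ENNReal.toReal_inv, ENNReal.toReal_natCast]
  rw [div_eq_inv_mul]

end Pool.Agent.Y933.KE
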