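import Pool.Agent.Y933.KE.DiophP
import Pool.Agent.Y933.KE.Smear

/-!
# The multiples of powers `p ^ N` in base `q` (helper933)
-/

set_option autoImplicit false

namespace Pool.Agent.Y933.KE

open Finset Real MeasureTheory Filter Topology ProbabilityTheory
open Pool.Agent.Y933.KD

/-- the measures: `(m p ^ N + y + θ) / q ^ J` with `1 ≤ m ≤ M`, `N ≤ A' log M`, `q ^ J ≤ p ^ N` -/
def SPw (p q : ℕ) (A' : ℝ) (M : ℕ) : Set (Measure ℝ) :=
  {P | ∃ N J y : ℕ, (N : ℝ) ≤ A' * log M ∧ q ^ J ≤ p ^ N ∧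
    P = smear (Finset.Icc 1 M) (fun m => m * p ^ N + y) q J}

lemma SPw_prob (p q : ℕ) (A' : ℝ) (M : ℕ) (hM : 1 ≤ M) (P : Measure ℝ) (hP : P ∈ SPw p q A' M) :
    IsProbabilityMeasure P := by
  obtain ⟨N, J, y, _, _, rfl⟩ := hP
  refine smear_prob ?_ _ _ _
  rw [Finset.nonempty_Icc]
  exact hM

theorem good_pow {p q : ℕ} (hp : 2 ≤ p) (hq : 2 ≤ q) (hpq : p.Coprime q) (A' : ℝ) (k : ℕ) (A : ℝ) :
    GoodQ q k A (SPw p q A') := by
  set A0 : ℝ := 2 * (|A| + |A'|) with hA0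
  obtain ⟨η, hη, L0, hL0⟩ := powers_far hp hq hpq k A0 (1 / 2) (by norm_num)
  refine ⟨min (η / 2) (1 / 4), lt_min (by positivity) (by norm_num), ⌈exp (L0 + 1)⌉₊ + 3, ?_⟩
  intro M hM P hP n h hn hh hne
  obtain ⟨N, J, y, hN, hJ, rfl⟩ := hP
  have hM3 : 3 ≤ M := by omega
  have hM1 : 1 ≤ M := by omega
  have hMR : (1 : ℝ) ≤ M := by exact_mod_cast hM1
  have hMp : (0 : ℝ) < M := by linarith
  have hlog3 : 1 ≤ log (M : ℝ) := by
    rw [Real.le_log_iff_exp_le hMp]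
    have h1 := Real.exp_one_lt_d9
    have h2 : (3 : ℝ) ≤ M := by exact_mod_cast hM3
    linarith
  have hlog : (L0 : ℝ) + 1 ≤ log M := by
    rw [Real.le_log_iff_exp_le hMp]
    calc exp ((L0 : ℝ) + 1) ≤ (⌈exp ((L0 : ℝ) + 1)⌉₊ : ℝ) := Nat.le_ceil _
      _ ≤ M := by exact_mod_cast (by omega : ⌈exp ((L0 : ℝ) + 1)⌉₊ ≤ M)
  set L : ℕ := ⌊log (M : ℝ)⌋₊ with hL
  have hL1 : (L : ℝ) ≤ log M := Nat.floor_le (by linarith)
  have hL2 : log (M : ℝ) < L + 1 := Nat.lt_floor_add_one _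
  have hLL0 : L0 ≤ L := by
    rw [hL]
    apply Nat.le_floor
    linarith
  have hL3 : (1 : ℝ) ≤ L := by
    have : 1 ≤ L := by
      rw [hL]
      apply Nat.le_floor
      exact_mod_cast hlog3
    exact_mod_cast this
  have hL4 : log (M : ℝ) ≤ 2 * L := by linarith
  have hb1 : ∀ {B : ℝ}, |B| ≤ |A| + |A'| → ∀ {z : ℝ}, z ≤ B * log M → z ≤ A0 * L := by
    intro B hB z hz
    calc z ≤ B * log M := hz
      _ ≤ |B| * log M := by gcongr; exact le_abs_self B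
      _ ≤ (|A| + |A'|) * (2 * L) := by gcongr
      _ = A0 * L := by rw [hA0]; ring
  set ℓ : ℤ := ∑ i, h i * (q : ℤ) ^ n i with hℓ
  by_cases hdvd : (q : ℤ) ^ J ∣ ℓ
  · rw [hat_smear_zero _ (by omega) hne hdvd, norm_zero]
    positivity
  · have hfar : ∀ P : ℤ, (M : ℝ) ^ (-(1 / 2) : ℝ) ≤
        |(p : ℝ) ^ N * ((ℓ : ℝ) / (q : ℝ) ^ J) - P| := by
      intro P
      have h1 := hL0 L hLL0 N J n h P
        (hb1 (by have := abs_nonneg A; linarith) hN)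
        (fun i => hb1 (by have := abs_nonneg A'; linarith) (hn i)) hJ
        (fun i => (hh i).trans (by
          rw [Real.rpow_def_of_pos hMp]
          apply exp_le_exp.2
          calc log M * min (η / 2) (1 / 4) ≤ (2 * L) * (η / 2) := by
                gcongr
                exact min_le_left _ _
            _ = η * L := by ring)) hdvd
      refine le_trans ?_ h1.le
      rw [Real.rpow_def_of_pos hMp]
      apply exp_le_exp.2
      linarith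
    refine (hat_smear_le _ _ _ _).trans ?_
    have h2 : ∑ m ∈ Finset.Icc 1 M, e ((ℓ : ℝ) / (q : ℝ) ^ J * ((m * p ^ N + y : ℕ) : ℝ)) =
        e ((ℓ : ℝ) / (q : ℝ) ^ J * y) *
          ∑ m ∈ Finset.Icc 1 M, e (m * ((p : ℝ) ^ N * ((ℓ : ℝ) / (q : ℝ) ^ J))) := by
      rw [mul_sum]
      refine sum_congr rfl fun m _ => ?_
      rw [← e_add]
      congr 1
      push_cast
      ring
    rw [h2, norm_mul, norm_e, one_mul, Nat.card_Icc, Nat.add_sub_cancel]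
    have h3 := sum_e_le M (α := (p : ℝ) ^ N * ((ℓ : ℝ) / (q : ℝ) ^ J))
      (ε := (M : ℝ) ^ (-(1 / 2) : ℝ)) (by positivity) hfar
    calc 1 / (M : ℝ) * ‖∑ m ∈ Finset.Icc 1 M, e (m * ((p : ℝ) ^ N * ((ℓ : ℝ) / (q : ℝ) ^ J)))‖
        ≤ 1 / (M : ℝ) * (1 / (2 * (M : ℝ) ^ (-(1 / 2) : ℝ))) := by gcongr
      _ = 1 / 2 * (M : ℝ) ^ (-(1 / 2) : ℝ) := by
          have h4 : (M : ℝ) * (M : ℝ) ^ (-(1 / 2) : ℝ) * (M : ℝ) ^ (-(1 / 2) : ℝ) = 1 := by
            rw [mul_assoc, ← Real.rpow_add hMp]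
            norm_num
            rw [Real.rpow_neg_one]
            field_simp
          have h5 : (M : ℝ) ^ (-(1 / 2) : ℝ) ≠ 0 := by positivity
          field_simp
          linarith
      _ ≤ 1 * (M : ℝ) ^ (-(1 / 2) : ℝ) := by gcongr; norm_num
      _ = (M : ℝ) ^ (-(1 / 2) : ℝ) := one_mul _
      _ ≤ (M : ℝ) ^ (-(min (η / 2) (1 / 4))) := by
          apply Real.rpow_le_rpow_of_exponent_le hMR
          have := min_le_right (η / 2) (1 / 4)
          linarith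

theorem tw_pow {p q : ℕ} (hp : 2 ≤ p) (hq : 2 ≤ q) (hpq : p.Coprime q) (A' : ℝ) (k : ℕ) (A : ℝ) :
    TW q k A (SPw p q A') :=
  TW.of_goodQ (by omega) (SPw_prob p q A') (good_pow hp hq hpq A' k A)

end Pool.Agent.Y933.KE
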