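import Pool.Agent.Y933.KD.Fam

/-!
# Tests on words in one base (helper933)
-/

set_option autoImplicit false

namespace Pool.Agent.Y933.KE

open Finset Real MeasureTheory Filter Topology ProbabilityTheory
open Pool.Agent.Y933.KD

/-- the event that the words of `w i` digits after the `n i`-th place are `c i` -/
def WE {k : ℕ} (b : ℕ) (n w c : Fin k → ℕ) : Set ℝ := {x | ∀ i, wd b (w i) (n i) x = c i}

lemma measurableSet_WE {k : ℕ} (b : ℕ) (n w c : Fin k → ℕ) : MeasurableSet (WE b n w c) := by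
  unfold WE
  rw [Set.ofPred_forall]
  exact MeasurableSet.iInter fun i => measurableSet_eq_fun (measurable_wd _ _ _) measurable_const

lemma WE_eq {k b : ℕ} (hb : 1 ≤ b) (n w c : Fin k → ℕ) :
    WE b n w c = Ev (fun _ => b) n (fun i => (c i : ℝ) / (b : ℝ) ^ (w i))
      (fun i => ((c i : ℝ) + 1) / (b : ℝ) ^ (w i)) := by
  ext x
  constructor
  · intro h i
    exact (wd_eq_iff hb x).1 (h i)
  · intro h i
    exact (wd_eq_iff hb x).2 (h i)

/-- all tests on `k` words inside the first `A log M` digits hold with a power saving -/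
def TW (b k : ℕ) (A : ℝ) (S : ℕ → Set (Measure ℝ)) : Prop :=
  ∃ δ : ℝ, 0 < δ ∧ ∃ C : ℝ, ∀ M : ℕ, 1 ≤ M → ∀ P ∈ S M, ∀ n w c : Fin k → ℕ,
    (∀ i, (n i : ℝ) + w i ≤ A * log M) →
    |P.real (WE b n w c) - Leb.real (WE b n w c)| ≤ C * (M : ℝ) ^ (-δ)

/-- small Fourier coefficients at the nonzero sums of `k` terms `h b ^ n`, for one base `b` -/
def GoodQ (b k : ℕ) (A : ℝ) (S : ℕ → Set (Measure ℝ)) : Prop :=
  ∃ η : ℝ, 0 < η ∧ ∃ M0 : ℕ, ∀ M : ℕ, M0 ≤ M → ∀ P ∈ S M, ∀ (n : Fin k → ℕ) (h : Fin k → ℤ),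
    (∀ i, (n i : ℝ) ≤ A * log M) → (∀ i, |(h i : ℝ)| ≤ (M : ℝ) ^ η) →
    ∑ i, h i * (b : ℤ) ^ n i ≠ 0 → ‖hat P (∑ i, h i * (b : ℤ) ^ n i)‖ ≤ (M : ℝ) ^ (-η)

lemma GoodQ.of_good {B b k : ℕ} {A : ℝ} {S : ℕ → Set (Measure ℝ)} (hG : Good B k A S)
    (hb : 1 ≤ b) (hbB : b ≤ B) : GoodQ b k A S := by
  obtain ⟨η, hη, M0, hM0⟩ := hG
  exact ⟨η, hη, M0, fun M hM P hP n h hn hh hne =>
    hM0 M hM P hP (fun _ => b) n h (fun _ => ⟨hb, hbB⟩) hn hh hne⟩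

lemma triv_le {P Q : Measure ℝ} [IsProbabilityMeasure P] [IsProbabilityMeasure Q] (E : Set ℝ) :
    |P.real E - Q.real E| ≤ 1 := by
  have h1 : P.real E ≤ 1 := measureReal_le_one
  have h2 : Q.real E ≤ 1 := measureReal_le_one
  have h3 : 0 ≤ P.real E := measureReal_nonneg
  have h4 : 0 ≤ Q.real E := measureReal_nonneg
  rw [abs_le]
  constructor <;> linarith

/-- intervals, for one base -/
theorem powerQ {b k : ℕ} (hb : 1 ≤ b) {A : ℝ} {S : ℕ → Set (Measure ℝ)}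
    (hS : ∀ M, 1 ≤ M → ∀ P ∈ S M, IsProbabilityMeasure P) (hG : GoodQ b k A S) :
    ∃ δ : ℝ, 0 < δ ∧ ∃ C : ℝ, ∀ M : ℕ, 1 ≤ M → ∀ P ∈ S M, ∀ n : Fin k → ℕ,
      (∀ i, (n i : ℝ) ≤ A * log M) → ∀ u v : Fin k → ℝ, (∀ i, 0 ≤ u i) → (∀ i, v i ≤ 1) →
      |P.real (Ev (fun _ => b) n u v) - Leb.real (Ev (fun _ => b) n u v)| ≤
        C * (M : ℝ) ^ (-δ) := by
  obtain ⟨η, hη, M0, hM0⟩ := hG
  -- the exponent
  obtain ⟨δ, hδ, hδ1, hδ2⟩ : ∃ δ : ℝ, 0 < δ ∧ 3 * δ ≤ η ∧ 3 * δ * k + δ ≤ η := by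
    refine ⟨η / (3 * k + 4), by positivity, ?_, ?_⟩
    · rw [mul_div_assoc', div_le_iff₀ (by positivity)]
      have : (0 : ℝ) ≤ k := Nat.cast_nonneg k
      nlinarith
    · have hk : (0 : ℝ) ≤ k := Nat.cast_nonneg k
      have e1 : 3 * (η / (3 * k + 4)) * k + η / (3 * k + 4) = η * ((3 * k + 1) / (3 * k + 4)) := by
        field_simp
      rw [e1]
      have : (3 * (k : ℝ) + 1) / (3 * k + 4) ≤ 1 := by
        rw [div_le_one (by positivity)]; linarith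
      nlinarith
  refine ⟨δ, hδ, max ((M0 : ℝ) ^ δ) (3 ^ k + k * 29), fun M hM P hP n hn u v hu hv => ?_⟩
  have := hS M hM P hP
  have hM1 : (1 : ℝ) ≤ M := by exact_mod_cast hM
  have hMpos : (0 : ℝ) < M := by linarith
  rcases lt_or_ge M M0 with hlt | hge
  · have h1 : (M : ℝ) ^ δ ≤ (M0 : ℝ) ^ δ := by
      apply Real.rpow_le_rpow hMpos.le _ hδ.le
      exact_mod_cast hlt.le
    calc |P.real (Ev (fun _ => b) n u v) - Leb.real (Ev (fun _ => b) n u v)| ≤ 1 := triv_le _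
      _ = (M : ℝ) ^ δ * (M : ℝ) ^ (-δ) := by
          rw [← Real.rpow_add hMpos]; simp
      _ ≤ max ((M0 : ℝ) ^ δ) (3 ^ k + k * 29) * (M : ℝ) ^ (-δ) := by
          gcongr
          exact h1.trans (le_max_left _ _)
  · -- the main case
    set K : ℕ := ⌊(M : ℝ) ^ δ⌋₊ with hKdef
    have hMδ : 1 ≤ (M : ℝ) ^ δ := Real.one_le_rpow hM1 hδ.le
    have hK : 0 < K := Nat.floor_pos.2 hMδ
    have hK1 : (K : ℝ) ≤ (M : ℝ) ^ δ := Nat.floor_le (by linarith)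
    have hK2 : (M : ℝ) ^ δ ≤ 2 * K := by
      have h1 := Nat.lt_floor_add_one ((M : ℝ) ^ δ)
      have h2 : (1 : ℝ) ≤ K := by exact_mod_cast hK
      rw [← hKdef] at h1
      linarith
    have hKR : (0 : ℝ) < K := by exact_mod_cast hK
    have hK3 : (K : ℝ) ^ 3 ≤ (M : ℝ) ^ (3 * δ) := by
      calc (K : ℝ) ^ 3 ≤ ((M : ℝ) ^ δ) ^ 3 := by gcongr
        _ = (M : ℝ) ^ (3 * δ) := by
            rw [← Real.rpow_natCast, ← Real.rpow_mul hMpos.le]
            congr 1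
            push_cast
            ring
    have hq : ∀ i, ((b : ℤ) ^ n i) ≠ 0 := fun i => by
      have : (b : ℤ) ≠ 0 := by omega
      exact pow_ne_zero _ this
    have hΔ0 : 0 ≤ (M : ℝ) ^ (-η) := by positivity
    have key := test hK P Leb hat_Leb (fun i => (b : ℤ) ^ n i) hq ((M : ℝ) ^ (-η))
      (by
        intro h hh hne
        refine hM0 M hge P hP n h hn (fun i => ?_) hne
        have h1 : |(h i : ℝ)| ≤ (K : ℝ) ^ 3 := by exact_mod_cast hh i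
        exact (h1.trans hK3).trans (Real.rpow_le_rpow_of_exponent_le hM1 hδ1)) hΔ0 u v hu hv
    rw [integral_ind P (fun _ => b) n u v, integral_ind Leb (fun _ => b) n u v] at key
    refine key.trans ?_
    have hMM : (M : ℝ) ^ (-η) ≤ (M : ℝ) ^ (-δ) :=
      Real.rpow_le_rpow_of_exponent_le hM1 (by
        have : (0 : ℝ) ≤ k := Nat.cast_nonneg k
        nlinarith)
    have h1 : (2 * (K : ℝ) ^ 3 + 1) ^ k * (M : ℝ) ^ (-η) ≤ 3 ^ k * (M : ℝ) ^ (-δ) := by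
      have h2 : 2 * (K : ℝ) ^ 3 + 1 ≤ 3 * (M : ℝ) ^ (3 * δ) := by
        have : 1 ≤ (M : ℝ) ^ (3 * δ) := Real.one_le_rpow hM1 (by positivity)
        linarith
      calc (2 * (K : ℝ) ^ 3 + 1) ^ k * (M : ℝ) ^ (-η)
          ≤ (3 * (M : ℝ) ^ (3 * δ)) ^ k * (M : ℝ) ^ (-η) := by gcongr
        _ = 3 ^ k * ((M : ℝ) ^ (3 * δ * k) * (M : ℝ) ^ (-η)) := by
            rw [mul_pow, ← Real.rpow_natCast ((M : ℝ) ^ (3 * δ)), ← Real.rpow_mul hMpos.le]
            ring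
        _ ≤ 3 ^ k * (M : ℝ) ^ (-δ) := by
            rw [← Real.rpow_add hMpos]
            refine mul_le_mul_of_nonneg_left ?_ (by positivity)
            exact Real.rpow_le_rpow_of_exponent_le hM1 (by linarith)
    have h2 : 12 / (K : ℝ) ≤ 24 * (M : ℝ) ^ (-δ) := by
      rw [Real.rpow_neg hMpos.le, div_le_iff₀ hKR]
      have h3 : 0 < (M : ℝ) ^ δ := by positivity
      have h4 : 24 * ((M : ℝ) ^ δ)⁻¹ * K = 12 * ((2 * K) / (M : ℝ) ^ δ) := by field_simp; ring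
      rw [h4]
      have h5 : 1 ≤ 2 * (K : ℝ) / (M : ℝ) ^ δ := by rw [le_div_iff₀ h3]; linarith
      linarith
    have hk : (0 : ℝ) ≤ k := Nat.cast_nonneg k
    have h3 : (k : ℝ) * (12 / K + 5 * (M : ℝ) ^ (-η)) ≤ k * (29 * (M : ℝ) ^ (-δ)) := by
      refine mul_le_mul_of_nonneg_left ?_ hk
      linarith
    calc (2 * (K : ℝ) ^ 3 + 1) ^ k * (M : ℝ) ^ (-η) + k * (12 / K + 5 * (M : ℝ) ^ (-η))
        ≤ 3 ^ k * (M : ℝ) ^ (-δ) + k * (29 * (M : ℝ) ^ (-δ)) := add_le_add h1 h3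
      _ = (3 ^ k + k * 29) * (M : ℝ) ^ (-δ) := by ring
      _ ≤ max ((M0 : ℝ) ^ δ) (3 ^ k + k * 29) * (M : ℝ) ^ (-δ) := by
          gcongr
          exact le_max_right _ _

lemma WE_empty {k b : ℕ} (hb : 1 ≤ b) {n w c : Fin k → ℕ} {i : Fin k} (hi : b ^ w i ≤ c i) :
    WE b n w c = ∅ := by
  rw [Set.eq_empty_iff_forall_notMem]
  intro x hx
  have h1 := hx i
  have h2 := wd_lt hb (w i) (n i) x
  omega

theorem TW.of_goodQ {b k : ℕ} (hb : 1 ≤ b) {A : ℝ} {S : ℕ → Set (Measure ℝ)}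
    (hS : ∀ M, 1 ≤ M → ∀ P ∈ S M, IsProbabilityMeasure P) (hG : GoodQ b k A S) : TW b k A S := by
  obtain ⟨δ, hδ, C, hC⟩ := powerQ hb hS hG
  refine ⟨δ, hδ, |C|, fun M hM P hP n w c hn => ?_⟩
  have hb' : (0 : ℝ) < b := by exact_mod_cast hb
  by_cases hc : ∃ i, b ^ w i ≤ c i
  · obtain ⟨i, hi⟩ := hc
    rw [WE_empty hb hi, measureReal_empty, measureReal_empty, sub_self, abs_zero]
    positivity
  · push Not at hc
    rw [WE_eq hb]
    refine (hC M hM P hP n (fun i => ?_) _ _ (fun i => ?_) (fun i => ?_)).trans ?_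
    · have := hn i
      have h1 : (0 : ℝ) ≤ w i := Nat.cast_nonneg _
      linarith
    · positivity
    · rw [div_le_one (by positivity)]
      exact_mod_cast hc i
    · exact mul_le_mul_of_nonneg_right (le_abs_self C) (by positivity)

lemma TW.mono {b k : ℕ} {A A' : ℝ} (hA : A ≤ A') {S : ℕ → Set (Measure ℝ)} (h : TW b k A' S) :
    TW b k A S := by
  obtain ⟨δ, hδ, C, hC⟩ := h
  refine ⟨δ, hδ, C, fun M hM P hP n w c hn => hC M hM P hP n w c fun i => (hn i).trans ?_⟩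
  have : 0 ≤ log (M : ℝ) := Real.log_nonneg (by exact_mod_cast hM)
  gcongr

end Pool.Agent.Y933.KE
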